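import Pool.Agent.W347.Et.Ten

set_option autoImplicit false

universe u

namespace Pool.Agent.W347.Et

open Pool.Agent.W559.Et Pool.Agent.W559.Mg

section

variable {k D : Type u} [Field k] [CommRing D] [Algebra k D]

/-- The elements of `D` with `t ^ m * x ∈ A`. -/
def Vs (A : Subalgebra k D) (t : D) (ht : t ∈ A) : Subalgebra k D where
  carrier := {x | ∃ m : ℕ, t ^ m * x ∈ A}
  mul_mem' := by
    rintro x y ⟨m, hm⟩ ⟨n, hn⟩
    refine ⟨m + n, ?_⟩
    have : t ^ (m + n) * (x * y) = (t ^ m * x) * (t ^ n * y) := by ring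
    rw [this]
    exact A.mul_mem hm hn
  add_mem' := by
    rintro x y ⟨m, hm⟩ ⟨n, hn⟩
    refine ⟨m + n, ?_⟩
    have : t ^ (m + n) * (x + y) = t ^ n * (t ^ m * x) + t ^ m * (t ^ n * y) := by ring
    rw [this]
    exact A.add_mem (A.mul_mem (A.pow_mem ht n) hm) (A.mul_mem (A.pow_mem ht m) hn)
  algebraMap_mem' := fun r => ⟨0, by rw [pow_zero, one_mul]; exact A.algebraMap_mem r⟩

lemma le_Vs (A : Subalgebra k D) (t : D) (ht : t ∈ A) : A ≤ Vs A t ht := fun x hx =>
  ⟨0, by rw [pow_zero, one_mul]; exact hx⟩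

lemma sub_loc (A B : Subalgebra k D) (hAB : A ≤ B) (t t' : D) (ht : t ∈ A) (ht' : t' ∈ B)
    (h1 : t' * t = 1) (h : B ≤ Vs A t ht) :
    @IsLocalization.Away A _ ⟨t, ht⟩ B _ (Subalgebra.inclusion hAB).toRingHom.toAlgebra := by
  let _ : Algebra A B := (Subalgebra.inclusion hAB).toRingHom.toAlgebra
  have hu : IsUnit (algebraMap A B ⟨t, ht⟩) := by
    refine IsUnit.of_mul_eq_one ⟨t', ht'⟩ ?_
    apply Subtype.ext
    show t * t' = 1
    rw [mul_comm]
    exact h1
  have : IsLocalization.Away (algebraMap A B ⟨t, ht⟩) B :=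
    IsLocalization.away_of_isUnit_of_bijective B hu Function.bijective_id
  refine isLoc_of_sub (A := A) (B := B) (M := B) ⟨t, ht⟩
    (fun a b hab => Subalgebra.inclusion_injective hAB hab) fun x => ?_
  obtain ⟨m, hm⟩ := h x.2
  exact ⟨m, ⟨_, hm⟩, rfl⟩

/-- The ideal of the elements with `t * z ∈ Q`. -/
def IT (P Q : Subalgebra k D) (h : P ≤ Q) (t : D) : Ideal P where
  carrier := {z | t * (z : D) ∈ Q}
  add_mem' := by
    intro a b ha hb
    show t * ((a : D) + b) ∈ Q
    rw [mul_add]
    exact Q.add_mem ha hb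
  zero_mem' := by
    show t * (0 : D) ∈ Q
    rw [mul_zero]
    exact Q.zero_mem
  smul_mem' := by
    intro a z hz
    show t * ((a : D) * z) ∈ Q
    have : t * ((a : D) * z) = a * (t * z) := by ring
    rw [this]
    exact Q.mul_mem (h a.2) hz

lemma dl_mul' (γ : D →ₐ[k] D) (x y : D) :
    dl γ (x * y) = dl γ x * y + x * dl γ y + dl γ x * dl γ y := by
  unfold dl
  rw [map_mul]
  ring

theorem ext_of_strong : StrongStm.{u} → ExtStm.{u} := by
  intro hSt k D _ _ _ γ N hN P0 P S0 hEI hγ0 hγP hγN T T' hTT hγT hind hPS hT' hS0 e he hdl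
  have hEI' := hEI
  obtain ⟨hP, het⟩ := hEI
  obtain ⟨S, hS⟩ : ∃ S, S = Algebra.adjoin k ((S0 : Set D) ∪
    {f | ∃ w ∈ P, ∃ j : ℕ, f = (dl γ)^[j] w * T ^ (j * e)}) := ⟨_, rfl⟩
  rw [← hS]
  have hS0S : S0 ≤ S := by
    rw [hS]
    exact fun x hx => Algebra.subset_adjoin (Or.inl hx)
  have hgen : ∀ w ∈ P, ∀ j : ℕ, (dl γ)^[j] w * T ^ (j * e) ∈ S := by
    intro w hw j
    rw [hS]
    exact Algebra.subset_adjoin (Or.inr ⟨w, hw, j, rfl⟩)
  have hPSS : P ≤ S := by
    intro w hw
    have := hgen w hw 0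
    simpa using this
  obtain ⟨S', hS'⟩ : ∃ S', S' = S0 ⊔ P := ⟨_, rfl⟩
  have hSS' : S' ≤ S := by
    rw [hS']
    exact sup_le hS0S hPSS
  have hS0S' : S0 ≤ S' := by rw [hS']; exact le_sup_left
  have hPS' : P ≤ S' := by rw [hS']; exact le_sup_right
  have het' : EI S0 S' := by
    rw [hS']
    exact base P0 P S0 hEI' T T' hTT hind hPS hS0
  have hTe : ∀ x : D, T' ^ e * (T ^ e * x) = x := by
    intro x
    rw [← mul_assoc, ← mul_pow, mul_comm T' T, hTT, one_pow, one_mul]
  have hTe1 : ∀ x : D, T * x = T' ^ (e - 1) * (T ^ e * x) := by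
    intro x
    have h1 : T ^ e = T ^ (e - 1) * T := by
      rw [← pow_succ]
      congr 1
      omega
    rw [h1, ← mul_assoc, ← mul_assoc, ← mul_pow, mul_comm T' T, hTT, one_pow, one_mul]
  -- the element `c`
  let aP : Algebra P0 P := (Subalgebra.inclusion hP).toRingHom.toAlgebra
  have : Algebra.Etale P0 P := het
  let g : P →+* P := ((γ : D →+* D).comp P.subtype).codRestrict P fun x => hγP x x.2
  have hg : ∀ x : P, ((g x : P) : D) = γ x := fun x => rfl
  obtain ⟨c, hgc, hc1, hc2⟩ := hSt P0 P (IT P0 S0 hPS T) g (by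
    intro r
    have h1 : g (algebraMap P0 P r) - algebraMap P0 P r =
        algebraMap P0 P (⟨γ r, hγ0 r r.2⟩ - r) := by
      apply Subtype.ext
      rfl
    rw [h1]
    apply Ideal.mem_map_of_mem
    show T * (γ r - r) ∈ S0
    rw [hTe1]
    exact S0.mul_mem (S0.pow_mem hT' _) (hdl r (hPS r.2))) N hN (by
    intro b
    apply Subtype.ext
    rw [← hγN b b.2]
    have : ∀ n (b : P), ((g^[n] b : P) : D) = γ^[n] b := by
      intro n
      induction n with
      | zero => intro b; rfl
      | succ n ih =>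
        intro b
        rw [Function.iterate_succ_apply, Function.iterate_succ_apply, ih, hg]
    exact this N b)
  have hJ1 : ∀ z : P, z ∈ (IT P0 S0 hPS T).map (algebraMap P0 P) → T * (z : D) ∈ S' := by
    have h1 : (IT P0 S0 hPS T).map (algebraMap P0 P) ≤ IT P S' hPS' T := by
      rw [Ideal.map_le_iff_le_comap]
      intro r hr
      exact hS0S' hr
    exact fun z hz => h1 hz
  have hγc : γ (c : D) = c := congrArg Subtype.val hgc
  have hcS' : (c : D) ∈ S' := hPS' c.2
  have hcS : (c : D) ∈ S := hPSS c.2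
  have hT'S : T' ∈ S := hS0S hT'
  have hc3 : T * ((c : D) - 1) ∈ S := by
    have h1 : (IT P0 S0 hPS T).map (algebraMap P0 P) ⊔
        Ideal.span (Set.range fun b => g b - b) ≤ IT P S hPSS T := by
      refine sup_le ?_ ?_
      · rw [Ideal.map_le_iff_le_comap]
        intro r hr
        exact hS0S hr
      · rw [Ideal.span_le]
        rintro _ ⟨b, rfl⟩
        show T * (γ b - b) ∈ S
        rw [hTe1]
        refine S.mul_mem (S.pow_mem hT'S _) ?_
        have := hgen b b.2 1
        rw [Function.iterate_one, one_mul, mul_comm] at this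
        exact this
    exact h1 hc2
  -- the unramified argument
  have claimA : ∀ w ∈ P, T ^ e * dl γ w ∈ Vs S' c hcS' := by
    let cS : S' := ⟨c, hcS'⟩
    let tS : S' := ⟨T', hS0S' hT'⟩
    let M := Localization.Away cS
    let al : S' →+* M := algebraMap S' M
    let I : Ideal M := Ideal.span {(al tS) ^ e}
    let iP : P →+* S' := (Subalgebra.inclusion hPS').toRingHom
    let φ : P →+* (M ⧸ I) := (Ideal.Quotient.mk I).comp (al.comp iP)
    have hφ : φ = φ.comp g := by
      refine unram (Subalgebra.inclusion hP).toRingHom het φ (φ.comp g) ?_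
        (Ideal.Quotient.mk I (al tS)) e ?_ ?_
      · intro r
        have h1 := hdl r (hPS r.2)
        show Ideal.Quotient.mk I (al _) = Ideal.Quotient.mk I (al _)
        rw [Ideal.Quotient.eq, ← map_sub]
        have h2 : (iP ((Subalgebra.inclusion hP) r) - iP (g ((Subalgebra.inclusion hP) r))) =
            tS ^ e * (-(⟨_, hS0S' h1⟩ : S')) := by
          apply Subtype.ext
          show (r : D) - γ r = T' ^ e * (-(T ^ e * dl γ r))
          rw [mul_neg, hTe]
          unfold dl
          ring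
        have h3 : al (iP ((Subalgebra.inclusion hP) r) - iP (g ((Subalgebra.inclusion hP) r))) ∈
            I := by
          rw [h2, map_mul, map_pow]
          exact Ideal.mul_mem_right _ _ (Ideal.subset_span rfl)
        exact h3
      · rw [← map_pow]
        exact Ideal.Quotient.eq_zero_iff_mem.2 (Ideal.subset_span rfl)
      · intro s
        have h1 := hJ1 _ (hc1 s)
        have hu : IsUnit (al cS) := IsLocalization.Away.algebraMap_isUnit cS
        obtain ⟨v, hv⟩ := hu.exists_right_inv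
        refine ⟨Ideal.Quotient.mk I (-(al ⟨_, h1⟩ * v)), ?_⟩
        show Ideal.Quotient.mk I (al (iP s)) - Ideal.Quotient.mk I (al (iP (g s))) = _
        rw [← RingHom.map_sub, ← RingHom.map_sub, ← RingHom.map_mul]
        congr 1
        have h2 : cS * (iP s - iP (g s)) = -(tS * ⟨_, h1⟩) := by
          apply Subtype.ext
          show (c : D) * ((s : D) - γ s) = -(T' * (T * ((c : D) * (γ s - s))))
          rw [← mul_assoc T' T, mul_comm T' T, hTT]
          ring
        have h3 := congrArg al h2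
        rw [map_mul, map_neg, map_mul] at h3
        calc al (iP s - iP (g s)) = (al cS * v) * al (iP s - iP (g s)) := by rw [hv, one_mul]
          _ = v * (al cS * al (iP s - iP (g s))) := by ring
          _ = al tS * -(al ⟨_, h1⟩ * v) := by
            rw [h3]
            ring
    intro w hw
    have h1 := DFunLike.congr_fun hφ ⟨w, hw⟩
    have h1' : Ideal.Quotient.mk I (al (iP ⟨w, hw⟩)) =
      Ideal.Quotient.mk I (al (iP (g ⟨w, hw⟩))) := h1
    have h2 := Ideal.Quotient.eq.1 h1'.symm
    rw [Ideal.mem_span_singleton] at h2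
    obtain ⟨m, hm⟩ := h2
    obtain ⟨⟨s, ⟨_, n, rfl⟩⟩, hs⟩ := IsLocalization.surj (Submonoid.powers cS) m
    have h3 : al ((iP (g ⟨w, hw⟩) - iP ⟨w, hw⟩) * cS ^ n) = al (tS ^ e * s) := by
      have hs' : m * al (cS ^ n) = al s := hs
      rw [RingHom.map_mul, RingHom.map_sub, hm, RingHom.map_mul al (tS ^ e) s, ← hs',
        RingHom.map_pow al tS]
      ring
    obtain ⟨⟨_, j, rfl⟩, hj⟩ := IsLocalization.exists_of_eq (M := Submonoid.powers cS) h3
    have h4 := congrArg Subtype.val hj
    have h5 : (c : D) ^ j * ((γ w - w) * (c : D) ^ n) = (c : D) ^ j * (T' ^ e * (s : D)) := h4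
    refine ⟨j + n, ?_⟩
    have h6 : (c : D) ^ (j + n) * (T ^ e * dl γ w) = (c : D) ^ j * (s : D) := by
      calc (c : D) ^ (j + n) * (T ^ e * dl γ w)
          = T ^ e * ((c : D) ^ j * ((γ w - w) * (c : D) ^ n)) := by
            unfold dl
            ring
        _ = (c : D) ^ j * (T' ^ e * (T ^ e * (s : D))) := by
            rw [h5]
            ring
        _ = _ := by rw [hTe]
    rw [h6]
    exact S'.mul_mem (S'.pow_mem hcS' _) s.2
  have hT'V : T' ∈ Vs S' c hcS' := le_Vs _ _ _ (hS0S' hT')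
  have claimB : ∀ x ∈ S', T ^ e * dl γ x ∈ Vs S' c hcS' := by
    intro x hx
    have hx' := hx
    rw [hS', Algebra.sup_def] at hx'
    have key : ∀ x ∈ Algebra.adjoin k ((S0 : Set D) ∪ P), x ∈ Vs S' c hcS' ∧
        T ^ e * dl γ x ∈ Vs S' c hcS' := by
      intro x hx
      induction hx using Algebra.adjoin_induction with
      | mem x hx =>
        rcases hx with hx | hx
        · exact ⟨le_Vs _ _ _ (hS0S' hx), le_Vs _ _ _ (hS0S' (hdl x hx))⟩
        · exact ⟨le_Vs _ _ _ (hPS' hx), claimA x hx⟩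
      | algebraMap r =>
        refine ⟨Subalgebra.algebraMap_mem _ r, ?_⟩
        have : dl γ (algebraMap k D r) = 0 := by
          unfold dl
          rw [AlgHom.commutes, sub_self]
        rw [this, mul_zero]
        exact Subalgebra.zero_mem _
      | add x y _ _ hx hy =>
        refine ⟨Subalgebra.add_mem _ hx.1 hy.1, ?_⟩
        rw [dl_add, mul_add]
        exact Subalgebra.add_mem _ hx.2 hy.2
      | mul x y _ _ hx hy =>
        refine ⟨Subalgebra.mul_mem _ hx.1 hy.1, ?_⟩
        have h1 : T ^ e * dl γ (x * y) = (T ^ e * dl γ x) * y + x * (T ^ e * dl γ y) +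
            T' ^ e * ((T ^ e * dl γ x) * (T ^ e * dl γ y)) := by
          have h2 : T' ^ e * ((T ^ e * dl γ x) * (T ^ e * dl γ y)) =
              dl γ x * (T ^ e * dl γ y) := by
            rw [← mul_assoc, hTe]
          rw [h2, dl_mul']
          ring
        rw [h1]
        exact Subalgebra.add_mem _ (Subalgebra.add_mem _ (Subalgebra.mul_mem _ hx.2 hy.1)
          (Subalgebra.mul_mem _ hx.1 hy.2)) (Subalgebra.mul_mem _ (Subalgebra.pow_mem _ hT'V _)
            (Subalgebra.mul_mem _ hx.2 hy.2))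
    exact (key x hx').2
  have claimC : ∀ x ∈ Vs S' c hcS', T ^ e * dl γ x ∈ Vs S' c hcS' := by
    rintro x ⟨m, hm⟩
    obtain ⟨n, hn⟩ := claimB _ hm
    refine ⟨n + m, ?_⟩
    have h1 : dl γ ((c : D) ^ m * x) = (c : D) ^ m * dl γ x := by
      unfold dl
      rw [map_mul, map_pow, hγc]
      ring
    rw [h1] at hn
    have h2 : (c : D) ^ (n + m) * (T ^ e * dl γ x) =
        (c : D) ^ n * (T ^ e * ((c : D) ^ m * dl γ x)) := by ring
    rw [h2]
    exact hn
  have claimD : S ≤ Vs S' c hcS' := by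
    rw [hS]
    apply Algebra.adjoin_le
    rintro f (hf | ⟨w, hw, j, rfl⟩)
    · exact le_Vs _ _ _ (hS0S' hf)
    · induction j with
      | zero =>
        simp only [Function.iterate_zero, id, zero_mul, pow_zero, mul_one]
        exact le_Vs _ _ _ (hPS' hw)
      | succ j ih =>
        have h1 := claimC _ ih
        have h2 : T ^ e * dl γ ((dl γ)^[j] w * T ^ (j * e)) =
            (dl γ)^[j + 1] w * T ^ ((j + 1) * e) := by
          rw [Function.iterate_succ_apply']
          have h3 : dl γ ((dl γ)^[j] w * T ^ (j * e)) = dl γ ((dl γ)^[j] w) * T ^ (j * e) := by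
            unfold dl
            rw [map_mul, map_pow, hγT]
            ring
          rw [h3]
          ring
        rw [h2] at h1
        exact h1
  -- the cover
  refine ⟨hS0S, ?_⟩
  refine cover _ (⟨c, hcS⟩ : S) (⟨T', hT'S⟩ : S) ?_ ?_ ?_
  · refine ⟨1, -⟨_, hc3⟩, ?_⟩
    apply Subtype.ext
    show 1 * (c : D) + -(T * ((c : D) - 1)) * T' = 1
    have : -(T * ((c : D) - 1)) * T' = -((T * T') * ((c : D) - 1)) := by ring
    rw [this, hTT]
    ring
  · obtain ⟨h1, h2⟩ := het'
    have h3 := etale_sub (M := Localization.Away (⟨c, hcS⟩ : S))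
      (Subalgebra.inclusion h1).toRingHom (Subalgebra.inclusion hSS').toRingHom h2
      (⟨c, hcS'⟩ : S')
      (hM := (inferInstance : IsLocalization.Away (⟨c, hcS⟩ : S)
        (Localization.Away (⟨c, hcS⟩ : S))))
      (fun a b hab => Subalgebra.inclusion_injective hSS' hab) (fun x => by
        obtain ⟨m, hm⟩ := claimD x.2
        exact ⟨m, ⟨_, hm⟩, rfl⟩)
    exact h3
  · obtain ⟨L0, hL0⟩ : ∃ L0, L0 = Algebra.adjoin k ((P0 : Set D) ∪ {T, T'}) := ⟨_, rfl⟩
    rw [← hL0] at hS0
    have hTL : T ∈ L0 := by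
      rw [hL0]
      exact Algebra.subset_adjoin (Or.inr (Or.inl rfl))
    have hP0L : P0 ≤ L0 := hPS.trans hS0
    have hLL : L0 ≤ L0 ⊔ P := le_sup_left
    have hSL : S ≤ L0 ⊔ P := by
      rw [hS]
      apply Algebra.adjoin_le
      rintro f (hf | ⟨w, hw, j, rfl⟩)
      · exact hLL (hS0 hf)
      · refine Subalgebra.mul_mem _ ?_ (Subalgebra.pow_mem _ (hLL hTL) _)
        have : (dl γ)^[j] w ∈ P := by
          induction j with
          | zero => exact hw
          | succ j ih =>
            rw [Function.iterate_succ_apply']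
            exact P.sub_mem (hγP _ ih) ih
        exact (le_sup_right : P ≤ L0 ⊔ P) this
    have v0 : L0 ≤ Vs S0 T' hT' := by
      rw [hL0]
      apply Algebra.adjoin_le
      rintro x (hx | hx | hx)
      · exact le_Vs _ _ _ (hPS hx)
      · refine ⟨1, ?_⟩
        rw [pow_one, hx, mul_comm, hTT]
        exact S0.one_mem
      · have hx' : x = T' := hx
        rw [hx']
        exact le_Vs _ _ _ hT'
    have v1 : L0 ⊔ P ≤ Vs S T' hT'S := by
      refine sup_le ?_ ?_
      · intro x hx
        obtain ⟨m, hm⟩ := v0 hx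
        exact ⟨m, hS0S hm⟩
      · intro x hx
        exact le_Vs _ _ _ (hPSS hx)
    have hL2 : EI L0 (L0 ⊔ P) := by
      refine base P0 P L0 hEI' T T' hTT hind hP0L ?_
      rw [← hL0]
    obtain ⟨_, hL3⟩ := hL2
    let a1 : Algebra S ↥(L0 ⊔ P) := (Subalgebra.inclusion hSL).toRingHom.toAlgebra
    have l1 : IsLocalization.Away (⟨T', hT'S⟩ : S) ↥(L0 ⊔ P) :=
      sub_loc S (L0 ⊔ P) hSL T' T hT'S (hLL hTL) hTT v1
    refine etale_of_away _ (⟨T', hT'S⟩ : S) ↥(L0 ⊔ P) ?_
    let a2 : Algebra S0 L0 := (Subalgebra.inclusion hS0).toRingHom.toAlgebra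
    have l2 : IsLocalization.Away (⟨T', hT'⟩ : S0) L0 :=
      sub_loc S0 L0 hS0 T' T hT' hTL hTT v0
    have l3 : Algebra.Etale S0 L0 := Algebra.Etale.of_isLocalizationAway (⟨T', hT'⟩ : S0)
    have l4 : (Subalgebra.inclusion hS0).toRingHom.Etale := l3
    exact RingHom.Etale.stableUnderComposition (Subalgebra.inclusion hS0).toRingHom
      (Subalgebra.inclusion hLL).toRingHom l4 hL3

theorem ext : CbStm.{u} → StrongStm.{u} → ExtStm.{u} := fun _ h => ext_of_strong h

end

end Pool.Agent.W347.Et
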