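import Mathlib

/-! General lemmas on etale ring homomorphisms. -/

set_option autoImplicit false

universe u

namespace Pool.Agent.W347.Et

open TensorProduct

/-- A localization of a ring is a localization of a subring which is large enough. -/
lemma isLoc_of_sub {A B M : Type u} [CommRing A] [CommRing B] [CommRing M] [Algebra A B]
    [Algebra B M] [Algebra A M] [IsScalarTower A B M] (c : A)
    [IsLocalization.Away (algebraMap A B c) M] (hinj : Function.Injective (algebraMap A B))
    (h : ∀ x : B, ∃ (m : ℕ) (a : A), algebraMap A B a = algebraMap A B c ^ m * x) :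
    IsLocalization.Away c M := by
  have hu : IsUnit (algebraMap A M c) := by
    rw [IsScalarTower.algebraMap_apply A B M]
    exact IsLocalization.Away.algebraMap_isUnit (algebraMap A B c)
  refine { map_units := ?_, surj := ?_, exists_of_eq := ?_ }
  · rintro ⟨y, n, rfl⟩
    simp only [map_pow]
    exact hu.pow n
  · intro z
    obtain ⟨⟨b, ⟨_, n, rfl⟩⟩, hb⟩ := IsLocalization.surj
      (Submonoid.powers (algebraMap A B c)) z
    obtain ⟨m, a, ha⟩ := h b
    refine ⟨⟨a, ⟨c ^ (m + n), m + n, rfl⟩⟩, ?_⟩
    simp only at hb ⊢
    rw [IsScalarTower.algebraMap_apply A B M a, ha, map_mul, ← hb, map_pow, map_pow, map_pow,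
      IsScalarTower.algebraMap_apply A B M c]
    ring
  · intro x y hxy
    rw [IsScalarTower.algebraMap_apply A B M x, IsScalarTower.algebraMap_apply A B M y] at hxy
    obtain ⟨⟨_, n, rfl⟩, hn⟩ := IsLocalization.exists_of_eq
      (M := Submonoid.powers (algebraMap A B c)) hxy
    refine ⟨⟨c ^ n, n, rfl⟩, ?_⟩
    simp only at hn ⊢
    apply hinj
    rw [map_mul, map_mul, map_pow]
    exact hn

lemma etale_of_away {R S : Type u} [CommRing R] [CommRing S] (f : R →+* S) (c : S) (M : Type u)
    [CommRing M] [Algebra S M] [IsLocalization.Away c M]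
    (h : ((algebraMap S M).comp f).Etale) :
    ((algebraMap S (Localization.Away c)).comp f).Etale := by
  let e := IsLocalization.algEquiv (Submonoid.powers c) M (Localization.Away c)
  have e1 : (algebraMap S (Localization.Away c)).comp f =
      (e : M →+* Localization.Away c).comp ((algebraMap S M).comp f) := by
    ext x
    simp only [RingHom.comp_apply]
    exact (e.commutes (f x)).symm
  rw [e1]
  exact RingHom.Etale.stableUnderComposition _ _ h (RingHom.Etale.of_bijective e.bijective)

lemma etale_sub {R A B M : Type u} [CommRing R] [CommRing A] [CommRing B] [CommRing M]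
    [Algebra B M] (f : R →+* A) (j : A →+* B) (hf : f.Etale) (c : A)
    [hM : IsLocalization.Away (j c) M] (hj : Function.Injective j)
    (h : ∀ x : B, ∃ (m : ℕ) (a : A), j a = j c ^ m * x) :
    ((algebraMap B M).comp (j.comp f)).Etale := by
  let _ : Algebra A B := j.toAlgebra
  let _ : Algebra A M := ((algebraMap B M).comp j).toAlgebra
  have : IsScalarTower A B M := IsScalarTower.of_algebraMap_eq fun _ => rfl
  have : IsLocalization.Away (algebraMap A B c) M := hM
  have l1 : IsLocalization.Away c M := isLoc_of_sub (A := A) (B := B) (M := M) c hj h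
  have l2 : Algebra.Etale A M := Algebra.Etale.of_isLocalizationAway c
  have l3 : (algebraMap A M).Etale := RingHom.etale_algebraMap.2 l2
  exact RingHom.Etale.stableUnderComposition f (algebraMap A M) hf l3

lemma cover {R S : Type u} [CommRing R] [CommRing S] (f : R →+* S) (c t : S)
    (h1 : ∃ a b, a * c + b * t = 1)
    (hc : ((algebraMap S (Localization.Away c)).comp f).Etale)
    (ht : ((algebraMap S (Localization.Away t)).comp f).Etale) : f.Etale := by
  apply RingHom.Etale.ofLocalizationSpanTarget f {c, t}
  · obtain ⟨a, b, hab⟩ := h1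
    rw [Ideal.eq_top_iff_one, Ideal.mem_span_pair]
    exact ⟨a, b, hab⟩
  · rintro ⟨r, hr⟩
    rcases hr with hr | hr
    · subst hr
      exact hc
    · have hr' : r = t := hr
      subst hr'
      exact ht

/-- The unramified argument: two homomorphisms that agree on the base and modulo a nilpotent
ideal agree. -/
lemma unram {R S Q : Type u} [CommRing R] [CommRing S] [CommRing Q] (i : R →+* S)
    (hi : i.Etale) (φ ψ : S →+* Q) (h0 : ∀ r, φ (i r) = ψ (i r)) (t : Q) (e : ℕ)
    (he : t ^ e = 0) (ht : ∀ s, ∃ q, φ s - ψ s = t * q) : φ = ψ := by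
  let _ : Algebra R S := i.toAlgebra
  let _ : Algebra R Q := (φ.comp i).toAlgebra
  have : Algebra.Etale R S := hi
  let g1 : S →ₐ[R] Q := { φ with commutes' := fun r => rfl }
  let g2 : S →ₐ[R] Q := { ψ with commutes' := fun r => (h0 r).symm }
  have h2 : g1 = g2 := by
    refine Algebra.FormallyUnramified.ext (Ideal.span {t}) ⟨e, ?_⟩ fun x => ?_
    · rw [Ideal.span_singleton_pow, he]
      exact Ideal.span_singleton_eq_bot.2 rfl
    · rw [Ideal.Quotient.eq, Ideal.mem_span_singleton]
      obtain ⟨q, hq⟩ := ht x
      exact ⟨q, hq⟩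
  ext x
  exact DFunLike.congr_fun h2 x

end Pool.Agent.W347.Et
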