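import Mathlib

/-! Laurent independence. -/

set_option autoImplicit false

universe u

namespace Pool.Agent.W347.Et

section

variable {k D : Type u} [Field k] [CommRing D] [Algebra k D] {T T' : D}

/-- the powers of `T` -/
noncomputable def bb (h : T * T' = 1) (i : ℤ) : D :=
  ((⟨T, T', h, by rw [mul_comm]; exact h⟩ : Dˣ) ^ i : Dˣ)

lemma bb_add (h : T * T' = 1) (i j : ℤ) : bb h (i + j) = bb h i * bb h j := by
  unfold bb
  rw [zpow_add, Units.val_mul]

lemma bb_zero (h : T * T' = 1) : bb h 0 = 1 := by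
  unfold bb
  rw [zpow_zero, Units.val_one]

lemma bb_one (h : T * T' = 1) : bb h 1 = T := by
  unfold bb
  rw [zpow_one]

lemma bb_neg_nat (h : T * T' = 1) (n : ℕ) : bb h (-(n : ℤ)) = T' ^ n := by
  unfold bb
  rw [zpow_neg, zpow_natCast, ← inv_pow, Units.val_pow_eq_pow_val]
  rfl

lemma indep (h : T * T' = 1) (P : Subalgebra k D)
    (hind : ∀ c : ℕ →₀ D, (∀ i, c i ∈ P) → (c.sum fun i a => a * T' ^ i) = 0 → c = 0) :
    ∀ c : ℤ →₀ D, (∀ i, c i ∈ P) → (c.sum fun i a => a * bb h i) = 0 → c = 0 := by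
  intro c hc hs
  obtain ⟨N, hN⟩ : ∃ N : ℕ, ∀ i ∈ c.support, i ≤ (N : ℤ) := by
    refine ⟨(c.support.sup fun i => i.toNat), fun i hi => ?_⟩
    have h1 : i.toNat ≤ c.support.sup fun i => i.toNat :=
      Finset.le_sup (f := fun i : ℤ => i.toNat) hi
    omega
  have hinj : Set.InjOn (fun j : ℕ => (N : ℤ) - j) ((fun j : ℕ => (N : ℤ) - j) ⁻¹' ↑c.support) := by
    intro a _ b _ hab
    simp only at hab
    omega
  have hbij : Set.BijOn (fun j : ℕ => (N : ℤ) - j) ((fun j : ℕ => (N : ℤ) - j) ⁻¹' ↑c.support)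
      ↑c.support := by
    refine ⟨fun j hj => hj, hinj, fun i hi => ?_⟩
    have h1 := hN i hi
    refine ⟨((N : ℤ) - i).toNat, ?_, ?_⟩
    · show (N : ℤ) - (((N : ℤ) - i).toNat : ℕ) ∈ (↑c.support : Set ℤ)
      have : (N : ℤ) - (((N : ℤ) - i).toNat : ℕ) = i := by omega
      rw [this]
      exact hi
    · simp only
      omega
  have key := Finsupp.sum_comapDomain (fun j : ℕ => (N : ℤ) - j) c
    (fun i a => a * (T' ^ N * bb h i)) hbij
  have h2 : (Finsupp.comapDomain (fun j : ℕ => (N : ℤ) - j) c hinj) = 0 := by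
    apply hind
    · intro j
      rw [Finsupp.comapDomain_apply]
      exact hc _
    · have e1 : (fun (j : ℕ) (a : D) => a * T' ^ j) =
          (fun (i : ℤ) (a : D) => a * (T' ^ N * bb h i)) ∘ fun j : ℕ => (N : ℤ) - j := by
        funext j a
        simp only [Function.comp_apply]
        rw [← bb_neg_nat h N, ← bb_neg_nat h j, ← bb_add]
        congr 2
        ring
      rw [e1, key]
      have e2 : (c.sum fun i a => a * (T' ^ N * bb h i)) =
          T' ^ N * (c.sum fun i a => a * bb h i) := by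
        rw [Finsupp.mul_sum]
        refine Finsupp.sum_congr fun i _ => ?_
        ring
      rw [e2, hs, mul_zero]
  ext i
  rw [Finsupp.zero_apply]
  by_contra hne
  have hi : i ∈ c.support := Finsupp.mem_support_iff.2 hne
  have h1 := hN i hi
  have h3 := DFunLike.congr_fun h2 ((N : ℤ) - i).toNat
  rw [Finsupp.comapDomain_apply, Finsupp.zero_apply] at h3
  have : (N : ℤ) - (((N : ℤ) - i).toNat : ℕ) = i := by omega
  rw [this] at h3
  exact hne h3

lemma spanning (h : T * T' = 1) (Q : Subalgebra k D) (x : D)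
    (hx : x ∈ Algebra.adjoin k ((Q : Set D) ∪ {T, T'})) :
    ∃ c : ℤ →₀ Q, x = c.sum fun i a => (a : D) * bb h i := by
  have h1 : x ∈ Submodule.span Q (Set.range (bb h)) := by
    induction hx using Algebra.adjoin_induction with
    | mem x hx =>
      rcases hx with hx | hx
      · have : x = (⟨x, hx⟩ : Q) • bb h 0 := by
          rw [bb_zero]
          show x = x * 1
          rw [mul_one]
        rw [this]
        exact Submodule.smul_mem _ _ (Submodule.subset_span ⟨0, rfl⟩)
      · rcases hx with hx | hx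
        · have e : x = bb h 1 := by rw [hx, bb_one]
          rw [e]
          exact Submodule.subset_span ⟨1, rfl⟩
        · have e : x = bb h (-((1 : ℕ) : ℤ)) := by
            rw [bb_neg_nat, pow_one]
            exact hx
          rw [e]
          exact Submodule.subset_span ⟨_, rfl⟩
    | algebraMap r =>
      have : algebraMap k D r = (⟨algebraMap k D r, Q.algebraMap_mem r⟩ : Q) • bb h 0 := by
        rw [bb_zero]
        show _ = algebraMap k D r * 1
        rw [mul_one]
      rw [this]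
      exact Submodule.smul_mem _ _ (Submodule.subset_span ⟨0, rfl⟩)
    | add x y _ _ hx hy => exact Submodule.add_mem _ hx hy
    | mul x y _ _ hx hy =>
      have h2 := Submodule.mul_mem_mul hx hy
      rw [Submodule.span_mul_span] at h2
      refine Submodule.span_mono ?_ h2
      rintro _ ⟨_, ⟨i, rfl⟩, _, ⟨j, rfl⟩, rfl⟩
      exact ⟨i + j, bb_add h i j⟩
  rw [Finsupp.mem_span_range_iff_exists_finsupp] at h1
  obtain ⟨c, hc⟩ := h1
  exact ⟨c, hc.symm⟩

lemma bb_mem (h : T * T' = 1) (Q : Subalgebra k D) (h1 : T ∈ Q) (h2 : T' ∈ Q) (i : ℤ) :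
    bb h i ∈ Q := by
  rcases Int.eq_nat_or_neg i with ⟨n, rfl | rfl⟩
  · have : bb h (n : ℤ) = T ^ n := by
      unfold bb
      rw [zpow_natCast, Units.val_pow_eq_pow_val]
    rw [this]
    exact Q.pow_mem h1 n
  · rw [bb_neg_nat]
    exact Q.pow_mem h2 n

end

end Pool.Agent.W347.Et
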