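import Pool.Agent.W559.Et.Stm
import Pool.Agent.W347.Et.Gen
import Pool.Agent.W347.Et.Lau

set_option autoImplicit false

universe u

namespace Pool.Agent.W347.Et

open Pool.Agent.W559.Et Pool.Agent.W559.Mg TensorProduct

section

variable {k D : Type u} [Field k] [CommRing D] [Algebra k D]

/-- Etale base change inside a Laurent extension. -/
theorem base (P0 P S0 : Subalgebra k D) (hEI : EI P0 P) (T T' : D) (h : T * T' = 1)
    (hind : ∀ c : ℕ →₀ D, (∀ i, c i ∈ P) → (c.sum fun i a => a * T' ^ i) = 0 → c = 0)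
    (hPS : P0 ≤ S0) (hS0 : S0 ≤ Algebra.adjoin k ((P0 : Set D) ∪ {T, T'})) :
    EI S0 (S0 ⊔ P) := by
  obtain ⟨hP, het⟩ := hEI
  refine ⟨le_sup_left, ?_⟩
  obtain ⟨L, hL⟩ : ∃ L, L = Algebra.adjoin k ((P0 : Set D) ∪ {T, T'}) := ⟨_, rfl⟩
  rw [← hL] at hS0
  have hPL : P0 ≤ L := hPS.trans hS0
  have hTL : T ∈ L := by
    rw [hL]
    exact Algebra.subset_adjoin (Or.inr (Or.inl rfl))
  have hTL' : T' ∈ L := by
    rw [hL]
    exact Algebra.subset_adjoin (Or.inr (Or.inr rfl))
  let aP : Algebra P0 P := (Subalgebra.inclusion hP).toRingHom.toAlgebra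
  let aS : Algebra P0 S0 := (Subalgebra.inclusion hPS).toRingHom.toAlgebra
  let aL : Algebra P0 L := (Subalgebra.inclusion hPL).toRingHom.toAlgebra
  have : Algebra.Etale P0 P := het
  have : Module.Flat P0 P := by
    have h1 := (RingHom.Etale.iff_flat_and_formallyUnramified.1 het).1
    exact h1
  let f : S0 →ₐ[P0] D := { S0.val.toRingHom with commutes' := fun r => rfl }
  let g : P →ₐ[P0] D := { P.val.toRingHom with commutes' := fun r => rfl }
  let fL : L →ₐ[P0] D := { L.val.toRingHom with commutes' := fun r => rfl }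
  let μ : S0 ⊗[P0] P →ₐ[P0] D := Algebra.TensorProduct.productMap f g
  let μL : L ⊗[P0] P →ₐ[P0] D := Algebra.TensorProduct.productMap fL g
  have hμ : ∀ (x : S0) (p : P), μ (x ⊗ₜ p) = (x : D) * (p : D) := fun x p =>
    Algebra.TensorProduct.productMap_apply_tmul f g x p
  have hμL : ∀ (x : L) (p : P), μL (x ⊗ₜ p) = (x : D) * (p : D) := fun x p =>
    Algebra.TensorProduct.productMap_apply_tmul fL g x p
  let bL : ℤ → L := fun i => ⟨bb h i, bb_mem h L hTL hTL' i⟩
  have hinjL : Function.Injective μL := by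
    rw [injective_iff_map_eq_zero]
    intro z hz
    obtain ⟨c, hc⟩ : ∃ c : ℤ →₀ P, z = c.sum fun i p => (bL i) ⊗ₜ[P0] p := by
      clear hz
      induction z using TensorProduct.induction_on with
      | zero => exact ⟨0, by rw [Finsupp.sum_zero_index]⟩
      | tmul x p =>
        obtain ⟨a, ha⟩ := spanning h P0 x.1 (by rw [← hL]; exact x.2)
        refine ⟨a.mapRange (fun r => r • p) (zero_smul _ _), ?_⟩
        rw [Finsupp.sum_mapRange_index (by intro i; exact TensorProduct.tmul_zero _ _)]
        have hx : x = a.sum fun i r => r • bL i := by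
          apply Subtype.ext
          rw [ha, Finsupp.sum, Finsupp.sum, AddSubmonoidClass.coe_finsetSum]
          rfl
        conv_lhs => rw [hx]
        rw [Finsupp.sum, TensorProduct.sum_tmul, Finsupp.sum]
        refine Finset.sum_congr rfl fun i _ => ?_
        exact TensorProduct.smul_tmul _ _ _
      | add x y hx hy =>
        obtain ⟨c1, h1⟩ := hx
        obtain ⟨c2, h2⟩ := hy
        refine ⟨c1 + c2, ?_⟩
        rw [Finsupp.sum_add_index' (fun i => TensorProduct.tmul_zero _ _)
          (fun i a b => TensorProduct.tmul_add _ _ _), h1, h2]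
    have h1 : (c.mapRange (fun p : P => (p : D)) rfl) = 0 := by
      apply indep h P hind
      · intro i
        rw [Finsupp.mapRange_apply]
        exact (c i).2
      · rw [Finsupp.sum_mapRange_index (by intro i; rw [zero_mul])]
        rw [hc, Finsupp.sum, map_sum] at hz
        rw [← hz, Finsupp.sum]
        refine Finset.sum_congr rfl fun i _ => ?_
        rw [hμL]
        exact mul_comm _ _
    have h2 : c = 0 := by
      ext i
      have h3 := DFunLike.congr_fun h1 i
      rw [Finsupp.mapRange_apply, Finsupp.zero_apply] at h3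
      rw [h3]
      rfl
    rw [hc, h2, Finsupp.sum_zero_index]
  let ι : S0 →ₗ[P0] L := { Subalgebra.inclusion hS0 with map_smul' := fun r x => rfl }
  have hι : Function.Injective ι := fun a b hab => Subalgebra.inclusion_injective hS0 hab
  have hinj : Function.Injective μ := by
    have h1 : ∀ z, μ z = μL (ι.rTensor P z) := by
      intro z
      induction z using TensorProduct.induction_on with
      | zero => simp
      | tmul x p =>
        rw [LinearMap.rTensor_tmul, hμ, hμL]
        rfl
      | add x y hx hy => rw [map_add, map_add, map_add, hx, hy]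
    intro a b hab
    rw [h1, h1] at hab
    exact Module.Flat.rTensor_preserves_injective_linearMap (M := P) ι hι (hinjL hab)
  have hr : ∀ z, μ z ∈ S0 ⊔ P := by
    intro z
    induction z using TensorProduct.induction_on with
    | zero => rw [map_zero]; exact Subalgebra.zero_mem _
    | tmul x p =>
      rw [hμ]
      exact Subalgebra.mul_mem _ (Algebra.mem_sup_left x.2) (Algebra.mem_sup_right p.2)
    | add x y hx hy => rw [map_add]; exact Subalgebra.add_mem _ hx hy
  let μ' : S0 ⊗[P0] P →+* ↥(S0 ⊔ P) := (μ : S0 ⊗[P0] P →+* D).codRestrict (S0 ⊔ P) hr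
  have hbij : Function.Bijective μ' := by
    refine ⟨fun a b hab => hinj (congrArg Subtype.val hab), ?_⟩
    rintro ⟨x, hx⟩
    have h1 : ∃ z, μ z = x := by
      rw [Algebra.sup_def] at hx
      induction hx using Algebra.adjoin_induction with
      | mem x hx =>
        rcases hx with hx | hx
        · exact ⟨(⟨x, hx⟩ : S0) ⊗ₜ 1, by rw [hμ]; exact mul_one x⟩
        · exact ⟨1 ⊗ₜ (⟨x, hx⟩ : P), by rw [hμ]; exact one_mul x⟩
      | algebraMap r =>
        exact ⟨(⟨algebraMap k D r, S0.algebraMap_mem r⟩ : S0) ⊗ₜ 1, by rw [hμ]; exact mul_one _⟩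
      | add x y _ _ hx hy =>
        obtain ⟨z, hz⟩ := hx
        obtain ⟨w, hw⟩ := hy
        exact ⟨z + w, by rw [map_add, hz, hw]⟩
      | mul x y _ _ hx hy =>
        obtain ⟨z, hz⟩ := hx
        obtain ⟨w, hw⟩ := hy
        exact ⟨z * w, by rw [map_mul, hz, hw]⟩
    obtain ⟨z, hz⟩ := h1
    exact ⟨z, Subtype.ext hz⟩
  have e : (Subalgebra.inclusion (le_sup_left : S0 ≤ S0 ⊔ P)).toRingHom =
      μ'.comp (algebraMap S0 (S0 ⊗[P0] P)) := by
    ext x
    show (x : D) = μ (x ⊗ₜ 1)
    rw [hμ]
    exact (mul_one _).symm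
  rw [e]
  exact RingHom.Etale.stableUnderComposition _ _
    ((RingHom.etale_algebraMap (R := S0) (S := S0 ⊗[P0] P)).2 inferInstance)
    (RingHom.Etale.of_bijective hbij)

end

end Pool.Agent.W347.Et
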